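import Pool.Agent.helper34.FJ3.DefsC
import Pool.Agent.helper36.LT.ArtinSC

set_option autoImplicit false
set_option linter.unusedVariables false

/-!
# The modified Deligne complex of an Artin group is simply connected
-/

namespace Pool.Agent.helper55.FJ3

open Pool.Agent.helper34.FJ2 Pool.Agent.helper34.FJ3
open Pool.Agent.helper36.LT (Artin gen alt artinRels)
open Pool.Agent.helper36.LT.ArtinSC (ev ev_nil ev_append ev_cons exists_word ev_mem ev_pair
  alt_word)

namespace DelSC

variable {S : Type} (M : CoxeterMatrix S)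

/-- the empty type -/
def tE : DTy M := ⟨∅, by simp, by simp⟩

/-- the type of one generator -/
def tS (s : S) : DTy M := ⟨{s}, by simp, by simp⟩

theorem dv_eq (T : DTy M) (g h : Artin M) : dv M T g = dv M T h ↔ g⁻¹ * h ∈ sgp M T.1 := by
  constructor
  · intro h
    exact QuotientGroup.eq.1 (eq_of_heq (Sigma.mk.inj h).2)
  · intro h
    exact congrArg (Sigma.mk T) (QuotientGroup.eq.2 h)

theorem dv_ty {T T' : DTy M} {g h : Artin M} (e : dv M T g = dv M T' h) : T = T' :=
  congrArg Sigma.fst e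

theorem dv_mul (T : DTy M) (g h : Artin M) (hh : h ∈ sgp M T.1) :
    dv M T (g * h) = dv M T g := by
  rw [eq_comm, dv_eq, inv_mul_cancel_left]
  exact hh

theorem sgp_empty : sgp M ∅ = ⊥ := by
  unfold sgp
  simp

theorem dvE_inj {g h : Artin M} (e : dv M (tE M) g = dv M (tE M) h) : g = h := by
  rw [dv_eq] at e
  have h1 : g⁻¹ * h ∈ sgp M ∅ := e
  rw [sgp_empty, Subgroup.mem_bot, inv_mul_eq_one] at h1
  exact h1

theorem empty_lt {T : DTy M} (h : T.1.Nonempty) : DCmp (tE M) T :=
  Or.inl (Finset.empty_ssubset.2 h)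

theorem edge_E {T : DTy M} (h : T.1.Nonempty) (g : Artin M) :
    (deligne M).edge (dv M (tE M) g) (dv M T g) :=
  ⟨g, _, _, empty_lt M h, rfl, rfl⟩

theorem ne_nonempty {T : DTy M} (h : T ≠ tE M) : T.1.Nonempty := by
  rw [Finset.nonempty_iff_ne_empty]
  intro h'
  exact h (Subtype.ext h')

theorem ev_mem' (T : Finset S) (w : List (S × Bool)) (hw : ∀ x ∈ w, x.1 ∈ T) :
    ev M w ∈ sgp M T := ev_mem M (T : Set S) w (by simpa using hw)

theorem ev_mem1 (x : S × Bool) : ev M [x] ∈ sgp M {x.1} := by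
  apply ev_mem'
  intro y hy
  rw [List.mem_singleton] at hy
  rw [hy]; simp

/-- the path of a word -/
def pw : Artin M → List (S × Bool) → List (DV M)
  | _, [] => []
  | g, x :: w => dv M (tS M x.1) g :: dv M (tE M) (g * ev M [x]) :: pw (g * ev M [x]) w

theorem endp_pw (g : Artin M) (w : List (S × Bool)) :
    endp (dv M (tE M) g) (pw M g w) = dv M (tE M) (g * ev M w) := by
  induction w generalizing g with
  | nil => rw [ev_nil, mul_one]; rfl
  | cons x w ih =>
    rw [ev_cons, ← mul_assoc]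
    exact ih _

theorem pw_append (g : Artin M) (w v : List (S × Bool)) :
    pw M g (w ++ v) = pw M g w ++ pw M (g * ev M w) v := by
  induction w generalizing g with
  | nil => rw [ev_nil, mul_one]; rfl
  | cons x w ih =>
    rw [ev_cons, ← mul_assoc]
    exact congrArg (fun l => dv M (tS M x.1) g :: dv M (tE M) (g * ev M [x]) :: l)
      (ih (g * ev M [x]))

theorem dvS (g : Artin M) (x : S × Bool) :
    dv M (tS M x.1) (g * ev M [x]) = dv M (tS M x.1) g :=
  dv_mul M _ _ _ (ev_mem1 M x)

theorem tS_ne (s : S) : (tS M s).1.Nonempty := Finset.singleton_nonempty s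

theorem edge_1 (g : Artin M) (x : S × Bool) :
    (deligne M).edge (dv M (tE M) g) (dv M (tS M x.1) g) := edge_E M (tS_ne M _) g

theorem edge_2 (g : Artin M) (x : S × Bool) :
    (deligne M).edge (dv M (tS M x.1) g) (dv M (tE M) (g * ev M [x])) := by
  apply (deligne M).edge_symm
  have h := edge_E M (tS_ne M x.1) (g * ev M [x])
  rwa [dvS] at h

theorem isPath_pw (g : Artin M) (w : List (S × Bool)) :
    IsPath (deligne M) (dv M (tE M) g) (pw M g w) := by
  induction w generalizing g with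
  | nil => trivial
  | cons x w ih => exact ⟨edge_1 M g x, edge_2 M g x, ih _⟩

/-- a word path with letters in a type -/
theorem hom_word (T : DTy M) (hT : T.1.Nonempty) (g : Artin M) (w : List (S × Bool))
    (hw : ∀ x ∈ w, x.1 ∈ T.1) :
    Htpy (deligne M) (dv M (tE M) g) (pw M g w) [dv M T g, dv M (tE M) (g * ev M w)] := by
  induction w generalizing g with
  | nil =>
    rw [ev_nil, mul_one]
    exact Htpy.symm _ _ _ (Htpy.spur _ _ [] (edge_E M hT g))
  | cons x w ih =>
    have h1 := ih (g * ev M [x]) (fun y hy => hw y (List.mem_cons_of_mem _ hy))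
    have hx : x.1 ∈ T.1 := hw x List.mem_cons_self
    have hxT : ev M [x] ∈ sgp M T.1 := by
      apply ev_mem'
      intro y hy
      rw [List.mem_singleton] at hy
      rw [hy]; exact hx
    rw [mul_assoc, ← ev_cons] at h1
    rw [dv_mul M T g _ hxT] at h1
    refine Htpy.trans _ _ (dv M (tS M x.1) g :: dv M (tE M) (g * ev M [x]) ::
      [dv M T g, dv M (tE M) (g * ev M (x :: w))]) _
      (Htpy.cons _ _ _ _ (Htpy.cons _ _ _ _ h1)) ?_
    by_cases hTx : T = tS M x.1
    · subst hTx
      exact Htpy.cons _ _ _ _ (Htpy.spur _ _ _ (edge_2 M g x))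
    · have hsub : (tS M x.1).1 ⊂ T.1 := by
        refine Finset.ssubset_iff_subset_ne.2 ⟨Finset.singleton_subset_iff.2 hx, fun h => ?_⟩
        exact hTx (Subtype.ext h.symm)
      have hA : (deligne M).tri (dv M (tS M x.1) g) (dv M (tE M) (g * ev M [x])) (dv M T g) :=
        ⟨g * ev M [x], tS M x.1, tE M, T, (empty_lt M (tS_ne M _)).symm, empty_lt M hT,
          Or.inl hsub, (dvS M g x).symm, rfl, (dv_mul M T g _ hxT).symm⟩
      have hB : (deligne M).tri (dv M (tE M) g) (dv M (tS M x.1) g) (dv M T g) :=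
        ⟨g, tE M, tS M x.1, T, empty_lt M (tS_ne M _), Or.inl hsub, empty_lt M hT, rfl, rfl, rfl⟩
      exact Htpy.trans _ _ _ _ (Htpy.cons _ _ _ _ (Htpy.tri _ _ _ _ hA)) (Htpy.tri _ _ _ _ hB)

/-- every path between cosets of the trivial group is homotopic to the path of a word -/
theorem hom_path (l : List (DV M)) (T : DTy M) (g h : Artin M)
    (hl : IsPath (deligne M) (dv M T g) l) (he : endp (dv M T g) l = dv M (tE M) h) :
    ∃ w, g * ev M w = h ∧
      ((T = tE M ∧ Htpy (deligne M) (dv M (tE M) g) l (pw M g w)) ∨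
       (T.1.Nonempty ∧ Htpy (deligne M) (dv M (tE M) g) (dv M T g :: l) (pw M g w))) := by
  induction l generalizing T g with
  | nil =>
    have hT := dv_ty M he
    subst hT
    have hg := dvE_inj M he
    subst hg
    exact ⟨[], by rw [ev_nil, mul_one], Or.inl ⟨rfl, Htpy.refl _ _⟩⟩
  | cons v l ih =>
    obtain ⟨⟨g', T1, T2, hc, h1, h2⟩, hl'⟩ := hl
    have hT := dv_ty M h1
    subst hT
    rw [dv_eq] at h1
    obtain ⟨w1, hw1, hw1'⟩ := exists_word M (T.1 : Set S) _ h1
    have hg' : g * ev M w1 = g' := by rw [hw1', mul_inv_cancel_left]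
    subst h2
    obtain ⟨w2, hw2, hw2'⟩ := ih T2 g' hl' he
    refine ⟨w1 ++ w2, by rw [ev_append, ← mul_assoc, hg', hw2], ?_⟩
    rcases hw2' with ⟨hT2, hh⟩ | ⟨hT2, hh⟩
    · -- T2 is empty
      subst hT2
      have hTn : T.1.Nonempty := by
        rcases hc with hc | hc
        · exact absurd hc (Finset.not_ssubset_empty _)
        · exact Finset.empty_ssubset.1 hc
      refine Or.inr ⟨hTn, ?_⟩
      rw [pw_append, hg']
      have h3 := (hom_word M T hTn g w1 hw1).append_right (pw M g' w2)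
      rw [hg'] at h3
      refine Htpy.trans _ _ _ _ ?_ (Htpy.symm _ _ _ h3)
      exact Htpy.cons _ _ _ _ (Htpy.cons _ _ _ _ hh)
    · by_cases hTE : T = tE M
      · subst hTE
        have hw : w1 = [] := by
          rcases w1 with _ | ⟨x, w1⟩
          · rfl
          · have := hw1 x List.mem_cons_self
            simp [tE] at this
        subst hw
        rw [ev_nil, mul_one] at hg'
        subst hg'
        exact Or.inl ⟨rfl, hh⟩
      · have hTn := ne_nonempty M hTE
        refine Or.inr ⟨hTn, ?_⟩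
        rw [pw_append, hg']
        have h3 := (hom_word M T hTn g w1 hw1).append_right (pw M g' w2)
        rw [hg'] at h3
        refine Htpy.trans _ _ _ _ ?_ (Htpy.symm _ _ _ h3)
        have h4 : (deligne M).tri (dv M T g) (dv M (tE M) g') (dv M T2 g') := by
          refine ⟨g', T, tE M, T2, (empty_lt M hTn).symm, empty_lt M hT2, hc, ?_, rfl, rfl⟩
          rw [dv_eq]
          exact h1
        have h5 := Htpy.tri (X := deligne M) _ _ _ l h4
        refine Htpy.cons _ _ _ _ (Htpy.trans _ _ _ _ (Htpy.symm _ _ _ h5) ?_)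
        exact Htpy.cons _ _ _ _ hh

/-! ### Word paths -/

theorem hom_append_left (g : Artin M) (w : List (S × Bool)) (l m : List (DV M))
    (h : Htpy (deligne M) (dv M (tE M) (g * ev M w)) l m) :
    Htpy (deligne M) (dv M (tE M) g) (pw M g w ++ l) (pw M g w ++ m) := by
  apply Htpy.append_left
  rwa [endp_pw]

theorem red_step (g : Artin M) (w v : List (S × Bool)) (h : FreeGroup.Red.Step w v) :
    Htpy (deligne M) (dv M (tE M) g) (pw M g w) (pw M g v) := by
  obtain @⟨L₁, L₂, s, e⟩ := h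
  rw [pw_append, pw_append]
  apply hom_append_left
  generalize g * ev M L₁ = c
  have h0 : c * ev M [(s, e)] * ev M [(s, !e)] = c := by
    rw [mul_assoc, ev_pair, mul_one]
  have h1 : pw M c ((s, e) :: (s, !e) :: L₂) =
      dv M (tS M s) c :: dv M (tE M) (c * ev M [(s, e)]) :: dv M (tS M s) (c * ev M [(s, e)]) ::
        dv M (tE M) c :: pw M c L₂ := by
    show dv M (tS M s) c :: dv M (tE M) (c * ev M [(s, e)]) ::
      dv M (tS M s) (c * ev M [(s, e)]) :: dv M (tE M) (c * ev M [(s, e)] * ev M [(s, !e)]) ::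
      pw M (c * ev M [(s, e)] * ev M [(s, !e)]) L₂ = _
    rw [h0]
  rw [h1, dvS M c (s, e)]
  refine Htpy.trans _ _ _ _ (Htpy.cons _ _ _ _ (Htpy.spur _ _ _ (edge_2 M c (s, e)))) ?_
  exact Htpy.spur _ _ _ (edge_1 M c (s, e))

theorem hom_red (g : Artin M) (w v : List (S × Bool)) (h : FreeGroup.Red w v) :
    Htpy (deligne M) (dv M (tE M) g) (pw M g w) (pw M g v) := by
  induction h with
  | refl => exact Htpy.refl _ _
  | tail _ h ih => exact Htpy.trans _ _ _ _ ih (red_step M g _ _ h)

theorem hom_mk (g : Artin M) (w v : List (S × Bool)) (h : FreeGroup.mk w = FreeGroup.mk v) :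
    Htpy (deligne M) (dv M (tE M) g) (pw M g w) (pw M g v) := by
  obtain ⟨c, h1, h2⟩ := FreeGroup.Red.exact.1 h
  exact Htpy.trans _ _ _ _ (hom_red M g _ _ h1) (Htpy.symm _ _ _ (hom_red M g _ _ h2))

theorem hom_rel (r : FreeGroup S) (hr : r ∈ artinRels M) (w : List (S × Bool))
    (hw : FreeGroup.mk w = r) (g : Artin M) :
    Htpy (deligne M) (dv M (tE M) g) (pw M g w) [] := by
  classical
  obtain ⟨⟨s, t⟩, h⟩ := hr
  simp only at h
  by_cases hM : M.M s t = 0
  · have hr1 : r = 1 := by
      rw [← h, hM]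
      simp [alt]
    rw [hr1] at hw
    exact hom_mk M g w [] hw
  · obtain ⟨u, hu, hu'⟩ := alt_word s t (M.M s t)
    obtain ⟨v, hv, hv'⟩ := alt_word t s (M.M s t)
    have hrel := h
    rw [← hu', ← hv', FreeGroup.inv_mk, FreeGroup.mul_mk] at h
    let T : DTy M := ⟨{s, t}, Finset.card_le_two, by
      intro a ha b hb
      rw [Finset.mem_insert, Finset.mem_singleton] at ha hb
      have hM' : M.M t s ≠ 0 := by rwa [M.symmetric]
      rcases ha with rfl | rfl <;> rcases hb with rfl | rfl
      · rw [M.diagonal]; exact one_ne_zero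
      · exact hM
      · exact hM'
      · rw [M.diagonal]; exact one_ne_zero⟩
    have hTn : T.1.Nonempty := ⟨s, Finset.mem_insert_self _ _⟩
    have h1 : ∀ x ∈ u ++ FreeGroup.invRev v, x.1 ∈ T.1 := by
      intro x hx
      rcases List.mem_append.1 hx with h | h
      · have := hu x h
        simpa [T] using this
      · unfold FreeGroup.invRev at h
        rw [List.mem_reverse, List.mem_map] at h
        obtain ⟨y, hy, rfl⟩ := h
        have := hv y hy
        simp only [Set.mem_insert_iff, Set.mem_singleton_iff] at this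
        simpa [T] using this.symm
    have h2 := hom_word M T hTn g _ h1
    have h3 : ev M (u ++ FreeGroup.invRev v) = 1 := by
      unfold ev
      rw [h]
      exact PresentedGroup.one_of_mem ⟨⟨s, t⟩, hrel⟩
    rw [h3, mul_one] at h2
    refine Htpy.trans _ _ _ _ (hom_mk M g w _ (hw.trans h.symm)) ?_
    exact Htpy.trans _ _ _ _ h2 (Htpy.spur _ _ [] (edge_E M hTn g))

/-- the words whose paths are null homotopic -/
def Nul (x : FreeGroup S) : Prop := PresentedGroup.mk (artinRels M) x = 1 ∧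
    ∀ (w : List (S × Bool)), FreeGroup.mk w = x →
      ∀ g, Htpy (deligne M) (dv M (tE M) g) (pw M g w) []

theorem nul_one : Nul M 1 := by
  refine ⟨map_one _, fun w hw b => ?_⟩
  exact hom_mk M b w [] (by rw [hw]; rfl)

theorem nul_mul (x y : FreeGroup S) (hx : Nul M x) (hy : Nul M y) : Nul M (x * y) := by
  obtain ⟨u, hu⟩ : ∃ u, FreeGroup.mk u = x := Quot.exists_rep x
  obtain ⟨v, hv⟩ : ∃ v, FreeGroup.mk v = y := Quot.exists_rep y
  refine ⟨by rw [map_mul, hx.1, hy.1, mul_one], fun w hw b => ?_⟩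
  rw [← hu, ← hv, FreeGroup.mul_mk] at hw
  refine Htpy.trans _ _ _ _ (hom_mk M b w _ hw) ?_
  rw [pw_append]
  have h1 := hom_append_left M b u _ [] (hy.2 v hv (b * ev M u))
  rw [List.append_nil] at h1
  exact Htpy.trans _ _ _ _ h1 (hx.2 u hu b)

theorem nul_inv (x : FreeGroup S) (hx : Nul M x) : Nul M x⁻¹ := by
  obtain ⟨u, hu⟩ : ∃ u, FreeGroup.mk u = x := Quot.exists_rep x
  refine ⟨by rw [map_inv, hx.1, inv_one], fun w hw b => ?_⟩
  have h0 := hom_mk M b (w ++ u) [] (by
    rw [← FreeGroup.mul_mk, hw, hu, inv_mul_cancel]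
    rfl)
  rw [pw_append] at h0
  have h1 := hom_append_left M b w _ [] (hx.2 u hu (b * ev M w))
  rw [List.append_nil] at h1
  exact Htpy.trans _ _ _ _ (Htpy.symm _ _ _ h1) h0

theorem nul_conj (x g : FreeGroup S) (hx : Nul M x) : Nul M (g * x * g⁻¹) := by
  obtain ⟨u, hu⟩ : ∃ u, FreeGroup.mk u = x := Quot.exists_rep x
  obtain ⟨v, hv⟩ : ∃ v, FreeGroup.mk v = g := Quot.exists_rep g
  refine ⟨by rw [map_mul, map_mul, hx.1, mul_one, ← map_mul, mul_inv_cancel, map_one],
    fun w hw b => ?_⟩
  rw [← hu, ← hv, FreeGroup.inv_mk, FreeGroup.mul_mk, FreeGroup.mul_mk, List.append_assoc] at hw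
  refine Htpy.trans _ _ _ _ (hom_mk M b w _ hw) ?_
  have hu1 : ev M u = 1 := by
    unfold ev
    rw [hu, hx.1]
  have h0 : Htpy (deligne M) (dv M (tE M) b)
      (pw M b v ++ pw M (b * ev M v) (FreeGroup.invRev v)) [] := by
    rw [← pw_append]
    refine hom_mk M b _ [] ?_
    rw [← FreeGroup.mul_mk, ← FreeGroup.inv_mk, mul_inv_cancel]
    rfl
  rw [pw_append, pw_append, hu1, mul_one]
  refine Htpy.trans _ _ _ _ (hom_append_left M b v _
    (pw M (b * ev M v) (FreeGroup.invRev v)) ?_) h0
  exact (hx.2 u hu (b * ev M v)).append_right (pw M (b * ev M v) (FreeGroup.invRev v))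

theorem nul_of_mem (x : FreeGroup S) (hx : x ∈ Subgroup.normalClosure (artinRels M)) :
    Nul M x := by
  unfold Subgroup.normalClosure at hx
  induction hx using Subgroup.closure_induction with
  | mem x hx =>
    obtain ⟨r, hr, hrx⟩ := Group.mem_conjugatesOfSet_iff.1 hx
    obtain ⟨g, hg⟩ := isConj_iff.1 hrx
    rw [← hg]
    exact nul_conj M r g ⟨PresentedGroup.one_of_mem hr, fun w hw b => hom_rel M r hr w hw b⟩
  | one => exact nul_one M
  | mul x y _ _ hx hy => exact nul_mul M x y hx hy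
  | inv x _ hx => exact nul_inv M x hx

/-- closed paths at the base vertex are null homotopic -/
theorem closed_base (l : List (DV M)) (hl : IsPath (deligne M) (dv M (tE M) 1) l)
    (he : endp (dv M (tE M) 1) l = dv M (tE M) 1) : Htpy (deligne M) (dv M (tE M) 1) l [] := by
  obtain ⟨w, hw, hw'⟩ := hom_path M l (tE M) 1 1 hl he
  rcases hw' with ⟨_, hh⟩ | ⟨hn, _⟩
  · refine Htpy.trans _ _ _ _ hh ?_
    have h1 : ev M w = 1 := by rwa [one_mul] at hw
    unfold ev at h1
    have h2 : FreeGroup.mk w ∈ Subgroup.normalClosure (artinRels M) :=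
      (QuotientGroup.eq_one_iff _).1 h1
    exact (nul_of_mem M _ h2).2 w rfl 1
  · exact absurd hn (by simp [tE])

theorem conn_base (v : DV M) : ∃ l, IsPath (deligne M) (dv M (tE M) 1) l ∧
    endp (dv M (tE M) 1) l = v := by
  obtain ⟨T, x⟩ := v
  obtain ⟨g, rfl⟩ := QuotientGroup.mk_surjective x
  obtain ⟨y, hy⟩ := PresentedGroup.mk_surjective (artinRels M) g
  obtain ⟨u, hu⟩ : ∃ u, FreeGroup.mk u = y := Quot.exists_rep y
  have hg : ev M u = g := by
    unfold ev
    rw [hu, hy]
  have he : endp (dv M (tE M) 1) (pw M 1 u) = dv M (tE M) g := by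
    rw [endp_pw, one_mul, hg]
  by_cases hT : T = tE M
  · subst hT
    exact ⟨pw M 1 u, isPath_pw M 1 u, he⟩
  · refine ⟨pw M 1 u ++ [dv M T g], ?_, ?_⟩
    · rw [isPath_append, he]
      exact ⟨isPath_pw M 1 u, edge_E M (ne_nonempty M hT) g, trivial⟩
    · rw [endp_append]
      rfl

end DelSC

open DelSC in
theorem deligne_sc {S : Type} (M : CoxeterMatrix S) : SimplyConnected (deligne M) := by
  refine ⟨⟨dv M (tE M) 1⟩, ?_, ?_⟩
  · intro a b
    obtain ⟨p, hp, rfl⟩ := conn_base M a
    obtain ⟨q, hq, rfl⟩ := conn_base M b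
    refine ⟨rev (dv M (tE M) 1) p ++ q, ?_, ?_⟩
    · rw [isPath_append, endp_rev]
      exact ⟨isPath_rev _ _ _ hp, hq⟩
    · rw [endp_append, endp_rev]
  · intro a l hl he
    obtain ⟨p, hp, rfl⟩ := conn_base M a
    have h1 : Htpy (deligne M) (dv M (tE M) 1)
        (p ++ (l ++ rev (dv M (tE M) 1) p)) [] := by
      apply closed_base
      · rw [isPath_append, isPath_append, he]
        exact ⟨hp, hl, isPath_rev _ _ _ hp⟩
      · rw [endp_append, endp_append, he, endp_rev]
    have h2 : Htpy (deligne M) (dv M (tE M) 1)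
        (p ++ (l ++ rev (dv M (tE M) 1) p)) (p ++ rev (dv M (tE M) 1) p) :=
      Htpy.trans _ _ _ _ h1 (Htpy.symm _ _ _ (htpy_rev _ _ _ hp))
    have h3 := Htpy.cancel_left p hp h2
    refine Htpy.cancel_right (rev (dv M (tE M) 1) p) he ?_ h3
    rw [he]
    exact isPath_rev _ _ _ hp

end Pool.Agent.helper55.FJ3
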