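import Pool.Agent.helper34.FJ3.Sd

set_option autoImplicit false

/-!
# FJ3-SDc: the lengths of the barycentric subdivision are invariant
-/

namespace Pool.Agent.helper55.FJ3

open Pool.Agent.helper34.FJ2 Pool.Agent.helper34.FJ3
open scoped BigOperators

variable {V : Type}

theorem bar_of_mem {s : Set V} (hs : s.Finite) {v : V} (hv : v ∈ s) :
    bar s v = 1 / (s.ncard : ℝ) := by
  classical
  unfold bar
  rw [dif_pos hs, Finsupp.indicator_apply, dif_pos (hs.mem_toFinset.mpr hv)]

theorem bar_of_not_mem {s : Set V} {v : V} (hv : v ∉ s) : bar s v = 0 := by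
  classical
  unfold bar
  split_ifs with hs
  · rw [Finsupp.indicator_apply, dif_neg (fun h => hv (hs.mem_toFinset.mp h))]
  · rfl

theorem bar_image {W : Type} (f : V ≃ W) {s : Set V} (hs : s.Finite) (v : V) :
    bar (f '' s) (f v) = bar s v := by
  by_cases hv : v ∈ s
  · rw [bar_of_mem hs hv, bar_of_mem (hs.image f) (Set.mem_image_of_mem f hv),
      Set.ncard_image_of_injective s f.injective]
  · rw [bar_of_not_mem hv, bar_of_not_mem]
    rintro ⟨w, hw, h⟩
    exact hv (f.injective h ▸ hw)

/-- `sqd` is invariant under bijections preserving the lengths between the points of the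
support -/
theorem sqd_map {W : Type} (len : V → V → ℝ) (len' : W → W → ℝ) (f : V ≃ W) (z : V →₀ ℝ)
    (z' : W →₀ ℝ) (h : ∀ v, z' (f v) = z v)
    (hl : ∀ a b, z a ≠ 0 → z b ≠ 0 → a ≠ b → len' (f a) (f b) = len a b) :
    sqd len' z' = sqd len z := by
  classical
  have hz : z' = Finsupp.equivMapDomain f z := by
    ext w
    rw [Finsupp.equivMapDomain_apply, ← h, Equiv.apply_symm_apply]
  subst hz
  unfold sqd
  congr 1
  rw [Finsupp.sum_equivMapDomain]
  refine Finsupp.sum_congr ?_
  intro a ha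
  rw [Finsupp.sum_equivMapDomain]
  refine Finsupp.sum_congr ?_
  intro b hb
  by_cases hab : a = b
  · rw [if_pos hab, if_pos (congrArg f hab)]
  · rw [if_neg hab, if_neg (fun h => hab (f.injective h)),
      hl a b (Finsupp.mem_support_iff.mp ha) (Finsupp.mem_support_iff.mp hb) hab]

theorem IsSimp.edge' {X : Complex2 V} {σ : Set V} (h : IsSimp X σ) {a b : V} (ha : a ∈ σ)
    (hb : b ∈ σ) (hab : a ≠ b) : X.edge a b := by
  rcases h with ⟨c, rfl⟩ | ⟨c, d, hcd, rfl⟩ | ⟨c, d, e, hcde, rfl⟩
  · rw [Set.mem_singleton_iff] at ha hb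
    exact absurd (ha.trans hb.symm) hab
  · simp only [Set.mem_insert_iff, Set.mem_singleton_iff] at ha hb
    rcases ha with rfl | rfl <;> rcases hb with rfl | rfl
    · exact absurd rfl hab
    · exact hcd
    · exact X.edge_symm _ _ hcd
    · exact absurd rfl hab
  · have h1 : X.edge c d := X.tri_edge _ _ _ hcde
    have h2 : X.edge d e := X.tri_edge _ _ _ (X.tri_rot _ _ _ hcde)
    have h3 : X.edge e c := X.tri_edge _ _ _ (X.tri_rot _ _ _ (X.tri_rot _ _ _ hcde))
    simp only [Set.mem_insert_iff, Set.mem_singleton_iff] at ha hb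
    rcases ha with rfl | rfl | rfl <;> rcases hb with rfl | rfl | rfl <;>
      first
        | exact absurd rfl hab
        | assumption
        | exact X.edge_symm _ _ (by assumption)

theorem IsSimp.finite {X : Complex2 V} {σ : Set V} (h : IsSimp X σ) : σ.Finite := by
  rcases h with ⟨c, rfl⟩ | ⟨c, d, hcd, rfl⟩ | ⟨c, d, e, hcde, rfl⟩
  · exact Set.finite_singleton c
  · exact (Set.finite_singleton d).insert c
  · exact ((Set.finite_singleton e).insert d).insert c

set_option linter.unusedVariables false in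
/-- SD-c -/
theorem sdLen_inv (X : Complex2 V) (len : V → V → ℝ) (f : V ≃ V)
    (hsym : ∀ a b, len a b = len b a)
    (hf : ∀ a b, X.edge a b → len (f a) (f b) = len a b) (s t s' t' : Simp X) (hst : SCmp s t)
    (hs : s'.1 = f '' s.1) (ht : t'.1 = f '' t.1) : sdLen len s' t' = sdLen len s t := by
  unfold sdLen
  congr 1
  have hsf := IsSimp.finite s.2
  have htf := IsSimp.finite t.2
  obtain ⟨σ, hσ, hsσ, htσ⟩ : ∃ σ, IsSimp X σ ∧ s.1 ⊆ σ ∧ t.1 ⊆ σ := by
    rcases hst with h | h
    · exact ⟨t.1, t.2, h.1, le_refl _⟩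
    · exact ⟨s.1, s.2, le_refl _, h.1⟩
  have hsup : ∀ a, (bar s.1 - bar t.1) a ≠ 0 → a ∈ σ := by
    intro a ha
    by_contra h
    apply ha
    rw [Finsupp.sub_apply, bar_of_not_mem (fun h' => h (hsσ h')),
      bar_of_not_mem (fun h' => h (htσ h')), sub_zero]
  apply sqd_map len len f
  · intro v
    rw [hs, ht, Finsupp.sub_apply, Finsupp.sub_apply, bar_image f hsf, bar_image f htf]
  · intro a b ha hb hab
    exact hf a b (IsSimp.edge' hσ (hsup a ha) (hsup b hb) hab)

end Pool.Agent.helper55.FJ3
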